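import Pool.Agent.H15.KS.ShD

/-!
# The restriction of one-cycles to the Milnor K-cohomology of the thickenings: definitions
-/

namespace Pool.Agent.H15.KS

open AlgebraicGeometry CategoryTheory CategoryTheory.Limits TopologicalSpace Opposite

universe u

noncomputable section

/-! ### Sheaves of abelian groups -/

section sheaves

/-- Sheaves of abelian groups on `X`. -/
abbrev AbSh (X : Scheme.{u}) : Type (u + 1) := Sheaf (Opens.grothendieckTopology X) AddCommGrpCat.{u}

instance hasExtAbSh (X : Scheme.{u}) : HasExt.{u} (AbSh X) := inferInstance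

variable {X : Scheme.{u}}

/-- The group of sections. -/
def secs (F : AbSh X) (U : X.Opens) : AddCommGrpCat.{u} := F.obj.obj (op U)

/-- The homomorphism on sections. -/
def onSecs {F G : AbSh X} (g : F ⟶ G) (U : X.Opens) : secs F U ⟶ secs G U := g.hom.app (op U)

/-- The sheaf associated with a presheaf. -/
def shf (P : X.Opensᵒᵖ ⥤ AddCommGrpCat.{u}) : AbSh X :=
  (presheafToSheaf (Opens.grothendieckTopology X) AddCommGrpCat.{u}).obj P

/-- The section of the associated sheaf given by a section of the presheaf. -/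
def toShf (P : X.Opensᵒᵖ ⥤ AddCommGrpCat.{u}) (U : X.Opens) : P.obj (op U) ⟶ secs (shf P) U :=
  (toSheafify (Opens.grothendieckTopology X) P).app (op U)

variable (X) in
/-- The constant sheaf `ℤ`. -/
def ZZ : AbSh X := shf ((Functor.const _).obj (AddCommGrpCat.of (ULift.{u} ℤ)))

variable (X) in
/-- The global section `1` of the constant sheaf `ℤ`. -/
def one : secs (ZZ X) ⊤ :=
  ap (toShf ((Functor.const _).obj (AddCommGrpCat.of (ULift.{u} ℤ))) ⊤) (ULift.up 1)

/-- The cohomology group `H^n(X, F)` (it is `Ext^n(ZZ X, F)`). -/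
def H (F : AbSh X) (n : ℕ) : AddCommGrpCat.{u} := AddCommGrpCat.of (Sheaf.H F n)

/-- The canonical isomorphism from the group of global sections to `H^0(X, F)`. -/
def toH (F : AbSh X) : secs F ⊤ ⟶ H F 0 :=
  the fun g => ∀ φ : ZZ X ⟶ F, ap g (ap (onSecs φ ⊤) (one X)) = Abelian.Ext.mk₀ φ

/-- The homomorphism `H^n(X, F) → H^n(X, G)`. -/
def onH {F G : AbSh X} (g : F ⟶ G) (n : ℕ) : H F n ⟶ H G n :=
  AddCommGrpCat.ofHom (X := H F n) (Y := H G n) (Sheaf.H.map g n)

/-- The direct image. -/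
def push {Y : Scheme.{u}} (i : Y ⟶ X) (F : AbSh Y) : AbSh X :=
  (TopCat.Sheaf.pushforward AddCommGrpCat.{u} i.base).obj F

end sheaves

/-! ### The Gersten complex -/

section gersten

variable (X : Scheme.{u})

/-- The entry `K_(n+1)(κ(v)) → K_n(κ(w))` of the differential of the Gersten complex. -/
def entry (v w : X) (n : ℕ) : MK (X.residueField v) (n + 1) ⟶ MK (X.residueField w) n :=
  open Classical in
  if h : v ⤳ w then residue (X.presheaf.stalkSpecializes h ≫ X.residue v).hom n else 0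

/-- The presheaf `U ↦ K_n(O(U))`. -/
def KPre (n : ℕ) : X.Opensᵒᵖ ⥤ AddCommGrpCat.{u} := X.presheaf ⋙ MKF n

/-- The Milnor K-sheaf `K^M_{n,X}`: the sheaf associated with `U ↦ K_n(O(U))`. -/
def K (n : ℕ) : AbSh X := shf (KPre X n)

/-- The sheaf `K^M_{n,X} / q`: the cokernel of the multiplication by `q`. -/
def Kq (q n : ℕ) : AbSh X := cokernel (q • 𝟙 (K X n))

/-- The projection `K^M_{n,X} ⟶ K^M_{n,X} / q`. -/
def toKq (q n : ℕ) : K X n ⟶ Kq X q n := cokernel.π (q • 𝟙 (K X n))

variable [IsNoetherian X]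

/-- The term `C^(d-s) = ⨁ K_s(κ(v))`, `v` of codimension `d - s`, of the Gersten complex of
`K^M_{d,X}`. -/
def C (d s : ℕ) : AbSh X := ⟨DPre X d s, isSheaf_DPre X d s⟩

/-- The differential `C^(d-s-1) ⟶ C^(d-s)`. -/
def dC (d s : ℕ) : C X d (s + 1) ⟶ C X d s :=
  the fun g => ∀ (U : X.Opens) (f : secs (C X d (s + 1)) U) (w : Pt X d s), w.pt ∈ U →
    ap (coord (KP X d s) (inU X d s U) w) (ap (onSecs g U) f) =
      ∑ᶠ v : Pt X d (s + 1), ap (entry X v.pt w.pt s)
        (ap (coord (KP X d (s + 1)) (inU X d (s + 1) U) v) f)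

/-- The map `K^M_{d,X} ⟶ C^0`. -/
def top (d : ℕ) : K X d ⟶ C X d d :=
  the fun g => ∀ (U : X.Opens) (a : MK Γ(X, U) d) (v : Pt X d d) (hv : v.pt ∈ U),
    ap (coord (KP X d d) (inU X d d U) v) (ap (onSecs g U) (ap (toShf (KPre X d) U) a)) =
      ap (mkMap (X.evaluation U v.pt hv).hom d) a

/-- The Gersten conjecture for `K^M_{e+1,X}`: the Gersten complex
`0 ⟶ K^M_{e+1,X} ⟶ C^0 ⟶ C^1 ⟶ … ⟶ C^(e+1) ⟶ 0` is exact. -/
def Gersten (e : ℕ) : Prop := IsRes (C X (e + 1)) (dC X (e + 1)) e (top X (e + 1))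

/-- The group of cycles of codimension `e + 1`. -/
def Cyc (e : ℕ) : AddCommGrpCat.{u} := secs (C X (e + 1) 0) ⊤

/-- The homomorphism from the group of cycles to `H^(e+1)(X, K^M_{e+1,X})`. -/
def cyc (e : ℕ) : Cyc X e ⟶ H (K X (e + 1)) (e + 1) :=
  the fun g => ∀ z, IsConn (C X (e + 1)) (dC X (e + 1)) e (top X (e + 1)) (ZZ X)
    (ap (toH (C X (e + 1) 0)) z) (ap g z)

/-- The cycles which are rationally equivalent to a multiple of `q`: the sum of a divisor of
functions on the integral closed subschemes of codimension `e` and of `q` times a cycle. -/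
def Rat (e q : ℕ) : AddSubgroup (Cyc X e) :=
  (onSecs (dC X (e + 1) 0) ⊤).hom.range ⊔ (nsmulAddMonoidHom q).range

/-- The group `CH^(e+1)(X) / q`. -/
def CHq (e q : ℕ) : AddCommGrpCat.{u} := AddCommGrpCat.of (Cyc X e ⧸ Rat X e q)

/-- The class of a cycle. -/
def toCHq (e q : ℕ) : Cyc X e ⟶ CHq X e q :=
  AddCommGrpCat.ofHom (X := Cyc X e) (Y := CHq X e q) (QuotientAddGroup.mk' (Rat X e q))

end gersten

/-! ### The restriction map -/

section restriction

/-- The reduction `K^M_{n,X} ⟶ i_* (K^M_{n,Y} / q)` for a morphism `i : Y ⟶ X`. -/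
def red {X Y : Scheme.{u}} (i : Y ⟶ X) (q n : ℕ) : K X n ⟶ push i (Kq Y q n) :=
  the fun g => ∀ (U : X.Opens) (a : MK Γ(X, U) n),
    ap (onSecs g U) (ap (toShf (KPre X n) U) a) =
      ap (onSecs (toKq Y q n) (i ⁻¹ᵁ U)) (ap (toShf (KPre Y n) (i ⁻¹ᵁ U))
        (ap (mkMap (i.app U).hom n) a))

variable {A : Type u} [CommRing A] [IsLocalRing A] {X : Scheme.{u}}
  (f : X ⟶ Spec (CommRingCat.of A))

/-- The thickening `X_n = X ×_A A/m^n` of the special fibre. -/
def thick (n : ℕ) : Scheme.{u} :=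
  pullback f (Spec.map (CommRingCat.ofHom (Ideal.Quotient.mk (IsLocalRing.maximalIdeal A ^ n))))

/-- The closed immersion `X_n ⟶ X`. -/
def thickι (n : ℕ) : thick f n ⟶ X := pullback.fst _ _

/-- The sheaf `i_* (K^M_{m,X_n} / q)` on `X`, `i : X_n ⟶ X`. -/
def Fn (q m n : ℕ) : AbSh X := push (thickι f n) (Kq (thick f n) q m)

/-- The restriction map `CH^(e+1)(X) / q ⟶ H^(e+1)(X, i_* (K^M_{e+1,X_n} / q))`. -/
def res [IsNoetherian X] (e q n : ℕ) : CHq X e q ⟶ H (Fn f q (e + 1) n) (e + 1) :=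
  the fun g => toCHq X e q ≫ g = cyc X e ≫ onH (red (thickι f n) q (e + 1)) (e + 1)

/-- The transition map `F_m ⟶ F_n`, `n ≤ m`, for `F_n = i_* (K^M_{d,X_n} / q)`: THE morphism
compatible with the reductions. -/
def tr (q d m n : ℕ) : Fn f q d m ⟶ Fn f q d n :=
  the fun g => red (thickι f m) q d ≫ g = red (thickι f n) q d

/-- The maps `res f e q n`, `n = 0, 1, 2, …`, are an isomorphism in the category of pro-objects,
from the constant pro-object `CH^(e+1)(X) / q` to the pro-object of the groups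
`H^(e+1)(X, i_* (K^M_{e+1,X_n} / q))`: for every `n` there are `m ≥ n` and a homomorphism `g` such
that both triangles commute. -/
def ProIso [IsNoetherian X] (e q : ℕ) : Prop :=
  ∀ n : ℕ, ∃ m ≥ n, ∃ g : H (Fn f q (e + 1) m) (e + 1) ⟶ CHq X e q,
    g ≫ res f e q n = onH (tr f q (e + 1) m n) (e + 1) ∧ res f e q m ≫ g = 𝟙 _

omit [IsLocalRing A] in
attribute [local instance] MvPolynomial.gradedAlgebra in
/-- `X` is projective over `Spec A`: there is a closed immersion over `Spec A` into a projective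
space `P^N_A = Proj A[x_0, …, x_N]`. -/
def IsProjectiveOver : Prop :=
  ∃ (N : ℕ) (i : X ⟶ Proj (MvPolynomial.homogeneousSubmodule (Fin (N + 1)) A)),
    IsClosedImmersion i ∧
    i ≫ Proj.toSpecZero (MvPolynomial.homogeneousSubmodule (Fin (N + 1)) A) ≫
      Spec.map (CommRingCat.ofHom (algebraMap A
        (MvPolynomial.homogeneousSubmodule (Fin (N + 1)) A 0))) = f

end restriction

end

end Pool.Agent.H15.KS
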