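import Pool.Agent.H15.KS.Defs2
import Pool.Agent.H17.KW.ResMap

/-!
# The restriction map of the compact statement and the one of the proof
-/

namespace Pool.Agent.H15.KS

open AlgebraicGeometry CategoryTheory CategoryTheory.Limits TopologicalSpace Opposite
open Pool.Agent.H62.MK Pool.Agent.H84.KEW

universe u

noncomputable section

section gen

variable {A B D : AddCommGrpCat.{u}}

lemma ap_add (g : A ⟶ B) (x y : A) : ap g (x + y) = ap g x + ap g y := map_add g.hom x y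

lemma ap_zero (g : A ⟶ B) : ap g 0 = 0 := map_zero g.hom

lemma ap_nsmul (g : A ⟶ B) (k : ℕ) (x : A) : ap g (k • x) = k • ap g x := map_nsmul g.hom k x

lemma ap_comp (g : A ⟶ B) (g' : B ⟶ D) (x : A) : ap (g ≫ g') x = ap g' (ap g x) := rfl

lemma ap_injective (g : A ⟶ B) (h : ∀ x, ap g x = 0 → x = 0) : Function.Injective (ap g) :=
  (injective_iff_map_eq_zero g.hom).2 h

lemma exists_desc (S : AddSubgroup A) (g : A ⟶ B) (h : ∀ x ∈ S, ap g x = 0) :
    ∃ g' : AddCommGrpCat.of (A ⧸ S) ⟶ B,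
      AddCommGrpCat.ofHom (X := A) (Y := AddCommGrpCat.of (A ⧸ S)) (QuotientAddGroup.mk' S) ≫ g' =
        g :=
  ⟨AddCommGrpCat.ofHom (X := A ⧸ S) (Y := B) (QuotientAddGroup.lift S g.hom h), rfl⟩

end gen

section coh

variable {X : Scheme.{u}} {F G G' : AbSh X}

lemma onH_comp (g : F ⟶ G) (g' : G ⟶ G') (k : ℕ) (x : H F k) :
    ap (onH (g ≫ g') k) x = ap (onH g' k) (ap (onH g k) x) :=
  Sheaf.H.map_comp_apply g g' x

lemma onH_injective (g : F ≅ G) (k : ℕ) : Function.Injective (ap (onH g.hom k)) := by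
  intro a b hab
  have h1 := congrArg (ap (onH g.inv k)) hab
  rw [← onH_comp, ← onH_comp, Iso.hom_inv_id] at h1
  have h2 : ∀ x : H F k, ap (onH (𝟙 F) k) x = x := fun x => Sheaf.H.map_id_apply x
  rwa [h2, h2] at h1

end coh

variable {X : Scheme.{u}} [IsNoetherian X] {e : ℕ}

/-- The underlying family of a cycle. -/
def famC (z : Cyc X e) : H17.KW.Cyc X (e + 1) :=
  (show supp (KP X (e + 1) 0) (inU X (e + 1) 0 ⊤) from z).1

/-- The underlying family of a section of `C^e`. -/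
def famC1 (c : secs (C X (e + 1) (0 + 1)) ⊤) :
    Π₀ v : H17.KW.Pts X (e + 1) (0 + 1), MilnorK (H17.KW.kap X v.1) (0 + 1) :=
  (show supp (KP X (e + 1) (0 + 1)) (inU X (e + 1) (0 + 1) ⊤) from c).1

/-- The cycle of a family. -/
def ofFam (z : H17.KW.Cyc X (e + 1)) : Cyc X e :=
  show supp (KP X (e + 1) 0) (inU X (e + 1) 0 ⊤) from ⟨z, fun _ hi => absurd trivial hi⟩

/-- The section of `C^e` of a family. -/
def ofFam1 (c : Π₀ v : H17.KW.Pts X (e + 1) (0 + 1), MilnorK (H17.KW.kap X v.1) (0 + 1)) :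
    secs (C X (e + 1) (0 + 1)) ⊤ :=
  show supp (KP X (e + 1) (0 + 1)) (inU X (e + 1) (0 + 1) ⊤) from
    ⟨c, fun _ hi => absurd trivial hi⟩

/-- The divisor of a section of `C^e`. -/
def dv (c : secs (C X (e + 1) (0 + 1)) ⊤) : Cyc X e := ap (onSecs (dC X (e + 1) 0) ⊤) c

lemma famC_ofFam (z : H17.KW.Cyc X (e + 1)) : famC (ofFam z) = z := rfl

lemma famC1_ofFam1 (c : Π₀ v : H17.KW.Pts X (e + 1) (0 + 1),
    MilnorK (H17.KW.kap X v.1) (0 + 1)) : famC1 (ofFam1 c) = c := rfl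

lemma ofFam_famC (z : Cyc X e) : ofFam (famC z) = z := rfl

lemma famC_add (z w : Cyc X e) : famC (z + w) = famC z + famC w := rfl

lemma famC_injective : Function.Injective (famC (X := X) (e := e)) := fun z w h => by
  rw [← ofFam_famC z, h, ofFam_famC]

lemma famC_nsmul (q : ℕ) (z : Cyc X e) : famC (q • z) = q • famC z := rfl

lemma mem_Rat (q : ℕ) (z : Cyc X e) :
    z ∈ Rat X e q ↔ ∃ (c : secs (C X (e + 1) (0 + 1)) ⊤) (z' : Cyc X e), z = dv c + q • z' := by
  unfold Rat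
  rw [AddSubgroup.mem_sup]
  constructor
  · rintro ⟨a, ⟨c, rfl⟩, b, ⟨z', rfl⟩, rfl⟩
    exact ⟨c, z', rfl⟩
  · rintro ⟨c, z', rfl⟩
    exact ⟨_, ⟨c, rfl⟩, _, ⟨z', rfl⟩, rfl⟩

variable {A : Type u} [CommRing A] [IsLocalRing A] (f : X ⟶ Spec (CommRingCat.of A)) {q n : ℕ}

/-- The class of a cycle in the cohomology of the old K-sheaf. -/
def oldC (h : H17.KW.Gersten X e) (z : Cyc X e) : H (H17.KW.KSh X (e + 1)) (e + 1) :=
  H17.KW.cycK h (famC z)

/-- The restriction of the class of a cycle. -/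
def oldR (q n : ℕ) (h : H17.KW.Gersten X e) (z : Cyc X e) :
    H (H17.KW.Fsh f q (e + 1) n) (e + 1) :=
  H17.KW.resCyc f q n h (famC z)

variable (h : H17.KW.Gersten X e)

lemma oldR_eq (z : Cyc X e) : oldR f q n h z =
    ap (onH (H17.KW.redSh (H17.KW.thickι f n) q (e + 1)) (e + 1)) (oldC h z) := rfl

lemma oldR_add (z w : Cyc X e) : oldR f q n h (z + w) = oldR f q n h z + oldR f q n h w :=
  (congrArg (H17.KW.resCyc f q n h) (famC_add z w)).trans (map_add _ _ _)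

lemma oldR_nsmul (z : Cyc X e) : oldR f q n h (q • z) = 0 :=
  (congrArg (H17.KW.resCyc f q n h) (famC_nsmul q z)).trans
    ((map_nsmul (H17.KW.resCyc f q n h) q (famC z)).trans
      (H17.KW.nsmul_H_eq_zero q (H17.KW.Fsh_nsmul f q (e + 1) n) _))

lemma oldR_ofFam (z : H17.KW.Cyc X (e + 1)) :
    oldR f q n h (ofFam z) = H17.KW.resCyc f q n h z := rfl

lemma oldR_dFam (c) : H17.KW.resCyc f q n h (H17.KW.dFam X (e + 1) 0 c) = 0 :=
  H17.KW.resCyc_dFam f q n h ⟨c, rfl⟩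

variable
  (κ : K X (e + 1) ≅ H17.KW.KSh X (e + 1))
  (φ : Fn f q (e + 1) n ≅ H17.KW.Fsh f q (e + 1) n)
  (hred : red (thickι f n) q (e + 1) ≫ φ.hom =
    κ.hom ≫ H17.KW.redSh (H17.KW.thickι f n) q (e + 1))
  (hcyc : ∀ z : Cyc X e, ap (onH κ.hom (e + 1)) (ap (cyc X e) z) = oldC h z)
  (hd : ∀ c : secs (C X (e + 1) (0 + 1)) ⊤, famC (dv c) = H17.KW.dFam X (e + 1) 0 (famC1 c))

include hred hcyc in
lemma map_res_cyc (z : Cyc X e) : ap (onH φ.hom (e + 1))
    (ap (onH (red (thickι f n) q (e + 1)) (e + 1)) (ap (cyc X e) z)) = oldR f q n h z := by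
  rw [oldR_eq, ← hcyc, ← onH_comp]
  refine Eq.trans ?_ (congrArg (fun g => ap (onH g (e + 1)) (ap (cyc X e) z)) hred)
  exact (onH_comp _ _ _ _).symm

include hd in
lemma oldR_dv (c : secs (C X (e + 1) (0 + 1)) ⊤) : oldR f q n h (dv c) = 0 :=
  (congrArg (H17.KW.resCyc f q n h) (hd c)).trans (oldR_dFam f h _)

include hred hcyc hd in
lemma kill_Rat (z : Cyc X e) (hz : z ∈ Rat X e q) :
    ap (cyc X e ≫ onH (red (thickι f n) q (e + 1)) (e + 1)) z = 0 := by
  refine onH_injective φ (e + 1) ?_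
  refine (map_res_cyc f h κ φ hred hcyc z).trans ?_
  refine Eq.trans ?_ (ap_zero (onH φ.hom (e + 1))).symm
  obtain ⟨c, z', rfl⟩ := (mem_Rat q z).1 hz
  rw [oldR_add, oldR_dv f h hd, oldR_nsmul, add_zero]

include hred hcyc hd in
lemma res_spec : toCHq X e q ≫ res f e q n =
    cyc X e ≫ onH (red (thickι f n) q (e + 1)) (e + 1) := by
  refine the_spec (P := fun g => toCHq X e q ≫ g =
    cyc X e ≫ onH (red (thickι f n) q (e + 1)) (e + 1)) ?_
  exact exists_desc (Rat X e q) (cyc X e ≫ onH (red (thickι f n) q (e + 1)) (e + 1))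
    (kill_Rat f h κ φ hred hcyc hd)

include hred hcyc hd in
lemma map_res (z : Cyc X e) :
    ap (onH φ.hom (e + 1)) (ap (res f e q n) (ap (toCHq X e q) z)) = oldR f q n h z := by
  rw [← map_res_cyc f h κ φ hred hcyc z, ← ap_comp (toCHq X e q),
    res_spec f h κ φ hred hcyc hd]
  rfl

omit [CommRing A] [IsLocalRing A] in
lemma toCHq_surjective : Function.Surjective (ap (toCHq X e q)) :=
  QuotientAddGroup.mk'_surjective (Rat X e q)

include hd in
omit [CommRing A] [IsLocalRing A] in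
lemma toCHq_eq_zero (z : Cyc X e) (c z') (hz : famC z = H17.KW.dFam X (e + 1) 0 c + q • z') :
    ap (toCHq X e q) z = 0 := by
  refine (QuotientAddGroup.eq_zero_iff z).2 ?_
  rw [mem_Rat]
  refine ⟨ofFam1 c, ofFam z', famC_injective ?_⟩
  rw [famC_add, famC_nsmul, hd, famC1_ofFam1, famC_ofFam, hz]

include hred hcyc hd in
/-- Injectivity. -/
theorem res_injective_of
    (hinj : ∀ z : H17.KW.Cyc X (e + 1), H17.KW.resCyc f q n h z = 0 →
      ∃ c z', z = H17.KW.dFam X (e + 1) 0 c + q • z') :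
    Function.Injective (ap (res f e q n)) := by
  refine ap_injective _ ?_
  intro x hx
  obtain ⟨z, rfl⟩ := toCHq_surjective x
  have h1 := map_res f h κ φ hred hcyc hd z
  rw [hx, ap_zero] at h1
  obtain ⟨c, z', hz⟩ := hinj (famC z) h1.symm
  exact toCHq_eq_zero hd z c z' hz

include hred hcyc hd in
/-- Surjectivity. -/
theorem res_surjective_of
    (hsur : ∀ y : H (H17.KW.Fsh f q (e + 1) n) (e + 1), ∃ z : H17.KW.Cyc X (e + 1),
      H17.KW.resCyc f q n h z = y) :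
    Function.Surjective (ap (res f e q n)) := by
  intro y
  obtain ⟨z, hz⟩ := hsur (ap (onH φ.hom (e + 1)) y)
  refine ⟨ap (toCHq X e q) (ofFam z), ?_⟩
  refine onH_injective φ (e + 1) ?_
  rw [map_res f h κ φ hred hcyc hd (ofFam z), oldR_ofFam, hz]

end

end Pool.Agent.H15.KS
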