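import Pool.Agent.H15.KS.Fin1
import Pool.Agent.H15.KEW.Inj
import Pool.Agent.H12.KSJ.Final
import Pool.Agent.H62.KB.T

/-!
# The theorem in the compact layer, from the comparison of the two layers
-/

namespace Pool.Agent.H15.KS

open AlgebraicGeometry CategoryTheory CategoryTheory.Limits TopologicalSpace Opposite
open Pool.Agent.H62.MK Pool.Agent.H84.KEW

universe u

noncomputable section

lemma projective_old {A : Type u} [CommRing A] {X : Scheme.{u}}
    {f : X ⟶ Spec (CommRingCat.of A)} (h : IsProjectiveOver f) : H17.KW.IsProjectiveOver f := h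

variable {X : Scheme.{u}} [IsNoetherian X] {e : ℕ} {A : Type u} [CommRing A]

section old

variable [IsLocalRing A] (f : X ⟶ Spec (CommRingCat.of A)) (q n : ℕ) (h : H17.KW.Gersten X e)

lemma old_res_mk (z : H17.KW.Cyc X (e + 1)) :
    H17.KW.res f q n h (H17.KW.toModQ q (H17.KW.CH X e) (KEW.mkCH X e z)) =
      H17.KW.resCyc f q n h z := rfl

/-- Injectivity on the level of cycles. -/
theorem old_inj (hi : Function.Injective (H17.KW.res f q n h)) (z : H17.KW.Cyc X (e + 1))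
    (hz : H17.KW.resCyc f q n h z = 0) :
    ∃ c z', z = H17.KW.dFam X (e + 1) 0 c + q • z' := by
  have h1 : H17.KW.toModQ q (H17.KW.CH X e) (KEW.mkCH X e z) = 0 :=
    hi ((old_res_mk f q n h z).trans (hz.trans (map_zero (H17.KW.res f q n h)).symm))
  rw [H17.KW.toModQ_eq_zero] at h1
  obtain ⟨y, hy⟩ := h1
  obtain ⟨z', rfl⟩ := KEW.mkCH_surjective X e y
  have h2 : KEW.mkCH X e (z - q • z') = 0 := by
    rw [map_sub, map_nsmul, sub_eq_zero]
    exact hy.symm
  obtain ⟨c, hc⟩ := (QuotientAddGroup.eq_zero_iff _).1 h2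
  exact ⟨c, z', by rw [hc, sub_add_cancel]⟩

/-- Surjectivity on the level of cycles. -/
theorem old_surj (hs : Function.Surjective (H17.KW.res f q n h))
    (y : H (H17.KW.Fsh f q (e + 1) n) (e + 1)) :
    ∃ z : H17.KW.Cyc X (e + 1), H17.KW.resCyc f q n h z = y := by
  obtain ⟨x, rfl⟩ := hs y
  obtain ⟨y, rfl⟩ := H17.KW.toModQ_surjective q (H17.KW.CH X e) x
  obtain ⟨z, rfl⟩ := KEW.mkCH_surjective X e y
  exact ⟨z, rfl⟩

end old

/-- Injectivity on the level of cycles, for the henselian discrete valuation rings. -/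
theorem inj_cyc [IsDomain A] [IsDiscreteValuationRing A] [HenselianLocalRing A]
    [CharZero A] (p : ℕ) (hp : p.Prime) (π ε : A) (E : ℕ) (hπ : Irreducible π) (hε : IsUnit ε)
    (hpE : (p : A) = ε * π ^ E) (f : X ⟶ Spec (CommRingCat.of A))
    [SmoothOfRelativeDimension (e + 1) f] (hf : IsProjectiveOver f) (h : H17.KW.Gersten X e)
    (r n : ℕ) (hn : 2 * (r * E) + 2 ≤ n) (z : H17.KW.Cyc X (e + 1))
    (hz : H17.KW.resCyc f (p ^ r) n h z = 0) :
    ∃ c z', z = H17.KW.dFam X (e + 1) 0 c + (p ^ r) • z' := by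
  rcases Nat.eq_zero_or_pos r with rfl | hr
  · exact ⟨0, z, by rw [map_zero, pow_zero, one_smul, zero_add]⟩
  · exact old_inj f (p ^ r) n h
      (KEW.injective_res H92.KST.ok_STARX H92.KST.ok_NAG H12.KG.done_LAST KEW.ok_KILLX p hp π ε hπ hε E r n
        hpE hr hn f e (projective_old hf) h) z hz

/-- Surjectivity on the level of cycles. -/
theorem surj_cyc [IsDomain A] [IsDiscreteValuationRing A] [HenselianLocalRing A]
    [CharZero A] (p : ℕ) (hp : p.Prime) (f : X ⟶ Spec (CommRingCat.of A))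
    [SmoothOfRelativeDimension (e + 1) f] (hf : IsProjectiveOver f) (h : H17.KW.Gersten X e)
    (r n : ℕ) (hn : 1 ≤ n) (y : H (H17.KW.Fsh f (p ^ r) (e + 1) n) (e + 1)) :
    ∃ z : H17.KW.Cyc X (e + 1), H17.KW.resCyc f (p ^ r) n h z = y :=
  old_surj f (p ^ r) n h
    (H12.KSJ.res_surjective f e (projective_old hf) h (p ^ r) n (Nat.one_le_pow _ _ hp.pos) hn) y

/-- The theorem from the comparison of the two layers. -/
theorem final_of [IsDomain A] [IsDiscreteValuationRing A] [HenselianLocalRing A]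
    [CharZero A] (p : ℕ) (hp : p.Prime) (π ε : A) (E : ℕ) (hπ : Irreducible π) (hε : IsUnit ε)
    (hpE : (p : A) = ε * π ^ E) (f : X ⟶ Spec (CommRingCat.of A))
    [SmoothOfRelativeDimension (e + 1) f] (hf : IsProjectiveOver f) (h : H17.KW.Gersten X e)
    (r : ℕ)
    (κ : K X (e + 1) ≅ H17.KW.KSh X (e + 1))
    (φ : ∀ n, Fn f (p ^ r) (e + 1) n ≅ H17.KW.Fsh f (p ^ r) (e + 1) n)
    (hred : ∀ n, red (thickι f n) (p ^ r) (e + 1) ≫ (φ n).hom =
      κ.hom ≫ H17.KW.redSh (H17.KW.thickι f n) (p ^ r) (e + 1))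
    (hcyc : ∀ z : Cyc X e, ap (onH κ.hom (e + 1)) (ap (cyc X e) z) = oldC h z)
    (hd : ∀ c : secs (C X (e + 1) (0 + 1)) ⊤,
      famC (dv c) = H17.KW.dFam X (e + 1) 0 (famC1 c)) :
    ProIso f e (p ^ r) ∧ (∀ n ≥ 1, Function.Surjective (ap (res f e (p ^ r) n))) ∧
      ∀ n ≥ 2 * (r * E) + 2, Function.Bijective (ap (res f e (p ^ r) n)) := by
  have hS : ∀ n ≥ 1, Function.Surjective (ap (res f e (p ^ r) n)) := fun n hn =>
    res_surjective_of f h κ (φ n) (hred n) hcyc hd (surj_cyc p hp f hf h r n hn)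
  have hI : ∀ n ≥ 2 * (r * E) + 2, Function.Injective (ap (res f e (p ^ r) n)) := fun n hn =>
    res_injective_of f h κ (φ n) (hred n) hcyc hd (inj_cyc p hp π ε E hπ hε hpE f hf h r n hn)
  have hB : ∀ n ≥ 2 * (r * E) + 2, Function.Bijective (ap (res f e (p ^ r) n)) := fun n hn =>
    ⟨hI n hn, hS n (by omega)⟩
  refine ⟨?_, hS, hB⟩
  exact H62.KB.proIso_of_bijective f e (p ^ r)
    (fun n => res_spec f h κ (φ n) (hred n) hcyc hd)
    (fun m n hmn => H62.KB.red_tr f (p ^ r) (e + 1) κ φ hred hmn)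
    (2 * (r * E) + 2) hB

end

end Pool.Agent.H15.KS
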