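import Pool.Agent.H62.MK.Defs

/-!
# The restriction of one-cycles to the Milnor K-cohomology of the thickenings: definitions
-/

namespace Pool.Agent.H15.KS

open CategoryTheory CategoryTheory.Limits Polynomial
open Pool.Agent.H62.MK (MRel)

universe u v w

noncomputable section

/-- THE morphism with the property `P` (zero if there is none). -/
def the {C : Type v} [Category.{w} C] [HasZeroMorphisms C] {A B : C} (P : (A ⟶ B) → Prop) :
    A ⟶ B :=
  open Classical in if h : ∃ g, P g then h.choose else 0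

theorem the_spec {C : Type v} [Category.{w} C] [HasZeroMorphisms C] {A B : C}
    {P : (A ⟶ B) → Prop} (h : ∃ g, P g) : P (the P) := by
  unfold the
  rw [dif_pos h]
  exact h.choose_spec

/-- The value of a homomorphism of abelian groups. -/
def ap {A B : AddCommGrpCat.{u}} (g : A ⟶ B) (x : A) : B := g.hom x

/-! ### Milnor K-groups -/

/-- The Milnor K-group `K_n(R)`. -/
def MK (R : Type u) [CommRing R] (n : ℕ) : AddCommGrpCat.{u} :=
  AddCommGrpCat.of (FreeAbelianGroup (Fin n → Rˣ) ⧸ AddSubgroup.closure {z | MRel R n z})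

/-- The symbol `{a_1, …, a_n}`. -/
def sy {R : Type u} [CommRing R] {n : ℕ} (a : Fin n → Rˣ) : MK R n :=
  QuotientAddGroup.mk (FreeAbelianGroup.of a)

/-- The homomorphism `K_n(R) → K_n(S)` of a ring homomorphism. -/
def mkMap {R S : Type u} [CommRing R] [CommRing S] (f : R →+* S) (n : ℕ) : MK R n ⟶ MK S n :=
  the fun g => ∀ a : Fin n → Rˣ, ap g (sy a) = sy fun i => Units.map f.toMonoidHom (a i)

theorem MK_ext {R : Type u} [CommRing R] {n : ℕ} {B : AddCommGrpCat.{u}} {f g : MK R n ⟶ B}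
    (h : ∀ a : Fin n → Rˣ, ap f (sy a) = ap g (sy a)) : f = g :=
  AddCommGrpCat.hom_ext (Pool.Agent.H62.MK.hom_ext (R := R) (n := n) h)

theorem mkMap_sy {R S : Type u} [CommRing R] [CommRing S] (f : R →+* S) {n : ℕ}
    (a : Fin n → Rˣ) : ap (mkMap f n) (sy a) = sy fun i => Units.map f.toMonoidHom (a i) :=
  the_spec (P := fun g : MK R n ⟶ MK S n => ∀ a : Fin n → Rˣ,
    ap g (sy a) = sy fun i => Units.map f.toMonoidHom (a i))
    ⟨AddCommGrpCat.ofHom (Pool.Agent.H62.MK.map f n), fun a => Pool.Agent.H62.MK.map_sym f a⟩ a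

/-- The functor `R ↦ K_n(R)`. -/
def MKF (n : ℕ) : CommRingCat.{u} ⥤ AddCommGrpCat.{u} where
  obj R := MK R n
  map f := mkMap f.hom n
  map_id _ := MK_ext fun a => mkMap_sy _ a
  map_comp f g := MK_ext fun a => by
    have h : ap (mkMap f.hom n ≫ mkMap g.hom n) (sy a) =
      ap (mkMap g.hom n) (ap (mkMap f.hom n) (sy a)) := rfl
    rw [h, mkMap_sy, mkMap_sy, mkMap_sy]
    rfl

/-- The tame symbol `K_(n+1)(F) → K_n(κ)`, for a subring `R` of the field `F` and a surjection
`ρ : R → κ` whose kernel is generated by one element `x`: it sends `{x, f_1, …, f_n}` to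
`{ρ f_1, …, ρ f_n}` if the `ρ f_i` are units, and `{f_0, …, f_n}` to zero if the `ρ f_i` are
units. -/
def tame {R F κ : Type u} [CommRing R] [Field F] [CommRing κ] (j : R →+* F) (ρ : R →+* κ)
    (n : ℕ) : MK F (n + 1) ⟶ MK κ n :=
  the fun g =>
    (∀ (x : R) (t : Fˣ) (f : Fin n → R) (a : Fin n → Fˣ) (b : Fin n → κˣ),
      RingHom.ker ρ = Ideal.span {x} → j x = t → (∀ i, j (f i) = a i ∧ ρ (f i) = b i) →
        ap g (sy (Fin.cons t a : Fin (n + 1) → Fˣ)) = sy b) ∧
    ∀ a : Fin (n + 1) → Fˣ, (∀ i, ∃ y : R, j y = a i ∧ IsUnit (ρ y)) → ap g (sy a) = 0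

/-- The tame symbol of `F(t)` at the place given by an irreducible polynomial `P`. -/
def tameAt {F : Type u} [Field F] (P : F[X]) (n : ℕ) :
    MK (RatFunc F) (n + 1) ⟶ MK (AdjoinRoot P) n :=
  tame (algebraMap F[X] (RatFunc F)) (AdjoinRoot.mk P) n

/-- The tame symbol of `F(t)` at infinity. -/
def tameInf (F : Type u) [Field F] (n : ℕ) : MK (RatFunc F) (n + 1) ⟶ MK F n :=
  tame (eval₂RingHom (algebraMap F (RatFunc F)) (RatFunc.X⁻¹)) (evalRingHom (0 : F)) n

/-- The Bass-Tate norm `N : K_n(F[t]/(P)) → K_n(F)` of a monic irreducible polynomial `P`: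
`N (∂_P a) = - ∂_∞ a` for all `a` with `∂_Q a = 0` for all monic irreducible `Q ≠ P`. -/
def btNorm {F : Type u} [Field F] (P : F[X]) (n : ℕ) : MK (AdjoinRoot P) n ⟶ MK F n :=
  the fun N => ∀ a : MK (RatFunc F) (n + 1),
    (∀ Q : F[X], Q.Monic → Irreducible Q → Q ≠ P → ap (tameAt Q n) a = 0) →
      ap N (ap (tameAt P n) a) = - ap (tameInf F n) a

/-- The Bass-Tate norm `K_n(F(x)) → K_n(F)` of a simple algebraic extension. -/
def simpleNorm (F : Type u) [Field F] {E : Type u} [Field E] [Algebra F E] (x : E) (n : ℕ) :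
    MK (IntermediateField.adjoin F {x}) n ⟶ MK F n :=
  the fun g => ∃ h : IsIntegral F x,
    mkMap (IntermediateField.adjoinRootEquivAdjoin F h : _ →+* _) n ≫ g = btNorm (minpoly F x) n

/-- The norm `K_n(E) → K_n(F)`, `E = F(x_1, …, x_m)`: the composition of the Bass-Tate norms of the
simple extensions `F ⊆ F(x_1) ⊆ F(x_1, x_2) ⊆ …`. -/
def towerNorm {E : Type u} [Field E] (n : ℕ) (l : List E) :
    ∀ (F : Type u) [Field F] [Algebra F E], MK E n ⟶ MK F n :=
  List.rec (motive := fun _ => ∀ (F : Type u) [Field F] [Algebra F E], MK E n ⟶ MK F n)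
    (fun F _ _ => the fun g => Function.Bijective (algebraMap F E) ∧
      mkMap (algebraMap F E) n ≫ g = 𝟙 _)
    (fun x _ N F _ _ => N (IntermediateField.adjoin F {x}) ≫ simpleNorm F x n) l

/-- The norm `K_n(E) → K_n(F)` of a finite extension, along the tower generated by a chosen
basis. -/
def norm {F E : Type u} [Field F] [Field E] (ψ : F →+* E) (n : ℕ) : MK E n ⟶ MK F n :=
  letI := ψ.toAlgebra
  open Classical in
  if _ : FiniteDimensional F E then towerNorm n (List.ofFn (Module.finBasis F E)) F else 0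

/-! ### Residue maps -/

/-- A discrete valuation ring `V` of the field `F` dominating the local ring `O`, for a ring
homomorphism `φ : O → F`, with the extension of residue fields. -/
structure Dom {O F : Type u} [CommRing O] [IsLocalRing O] [Field F] (φ : O →+* F) where
  /-- the valuation ring -/
  V : ValuationSubring F
  dvr : IsDiscreteValuationRing V
  /-- the extension of residue fields -/
  res : IsLocalRing.ResidueField O →+* IsLocalRing.ResidueField V
  comm : ∀ a : O, ∃ h : φ a ∈ V,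
    IsLocalRing.residue V ⟨φ a, h⟩ = res (IsLocalRing.residue O a)

/-- The residue map `K_(n+1)(F) → K_n(κ)` for a one-dimensional local domain with fraction field
`F` and residue field `κ`, image of `φ : O → F`: the sum over the discrete valuation rings of `F`
dominating `O` of the tame symbol followed by the norm. -/
def residue {O F : Type u} [CommRing O] [IsLocalRing O] [Field F] (φ : O →+* F) (n : ℕ) :
    MK F (n + 1) ⟶ MK (IsLocalRing.ResidueField O) n :=
  ∑ᶠ D : Dom φ, tame D.V.subtype (IsLocalRing.residue D.V) n ≫ norm D.res n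

/-! ### Families -/

section families

variable {ι : Type u} (M : ι → AddCommGrpCat.{u})

/-- Finitely supported families of elements of the groups `M i`. -/
def Fam : AddCommGrpCat.{u} := AddCommGrpCat.of (Π₀ i, M i)

/-- The component at `i`. -/
def comp (i : ι) : Fam M ⟶ M i :=
  AddCommGrpCat.ofHom (X := Π₀ i, M i) (Y := M i) (DFinsupp.evalAddMonoidHom i)

/-- The families with components zero outside `S`. -/
def supp (S : Set ι) : AddSubgroup (Fam M) where
  carrier := {f | ∀ i, i ∉ S → ap (comp M i) f = 0}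
  zero_mem' := fun i _ => map_zero (comp M i).hom
  add_mem' := fun {a b} ha hb i hi =>
    (map_add (comp M i).hom a b).trans
      ((congrArg₂ (· + ·) (ha i hi) (hb i hi)).trans (add_zero _))
  neg_mem' := fun {a} ha i hi =>
    (map_neg (comp M i).hom a).trans ((congrArg (- ·) (ha i hi)).trans neg_zero)

/-- The group of the families with components zero outside `S`. -/
def Sec (S : Set ι) : AddCommGrpCat.{u} := AddCommGrpCat.of (supp M S)

/-- The component at `i`. -/
def coord (S : Set ι) (i : ι) : Sec M S ⟶ M i :=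
  AddCommGrpCat.ofHom (X := supp M S) (Y := Fam M) (supp M S).subtype ≫ comp M i

/-- The restriction map: it keeps the components in `T`. -/
def cut (S T : Set ι) : Sec M S ⟶ Sec M T :=
  the fun g => ∀ (f : Sec M S), ∀ i ∈ T, ap (coord M T i) (ap g f) = ap (coord M S i) f

theorem sec_ext {S : Set ι} {f g : Sec M S}
    (h : ∀ i ∈ S, ap (coord M S i) f = ap (coord M S i) g) : f = g := by
  refine Subtype.ext (DFinsupp.ext fun i => ?_)
  by_cases hi : i ∈ S
  · exact h i hi
  · exact ((show supp M S from f).2 i hi).trans ((show supp M S from g).2 i hi).symm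

theorem cut_spec {S T : Set ι} (f : Sec M S) (i : ι) (hi : i ∈ T) :
    ap (coord M T i) (ap (cut M S T) f) = ap (coord M S i) f := by
  classical
  let k : (Π₀ i, M i) →+ (Π₀ i, M i) :=
    DFinsupp.filterAddMonoidHom (fun i => (M i : Type u)) (fun i => i ∈ T)
  have hk : ∀ (f : Π₀ i, M i), k f ∈ supp M T := fun f i hi =>
    DFinsupp.filter_apply_neg (p := fun i => i ∈ T) f hi
  have h : ∃ g : Sec M S ⟶ Sec M T, ∀ (f : Sec M S), ∀ i ∈ T,
      ap (coord M T i) (ap g f) = ap (coord M S i) f :=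
    ⟨AddCommGrpCat.ofHom ((k.comp (supp M S).subtype).codRestrict (supp M T)
      fun f => hk f.1), fun f i hi => DFinsupp.filter_apply_pos (p := fun i => i ∈ T)
        (show supp M S from f).1 hi⟩
  exact the_spec h f i hi

end families

/-! ### Resolutions in an abelian category -/

section abelian

variable {𝒜 : Type v} [Category.{w} 𝒜] [Abelian 𝒜]

/-- `A ⟶ B ⟶ C` is exact. -/
def Ex {A B C : 𝒜} (f : A ⟶ B) (g : B ⟶ C) : Prop :=
  ∃ h : f ≫ g = 0, (ShortComplex.mk f g h).Exact

variable (D : ℕ → 𝒜) (δ : ∀ s, D (s + 1) ⟶ D s) (e : ℕ) {K : 𝒜} (k : K ⟶ D (e + 1))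

/-- The sequence `0 ⟶ K ⟶ D (e+1) ⟶ D e ⟶ … ⟶ D 0 ⟶ 0` is exact. -/
def IsRes : Prop :=
  Mono k ∧ Ex k (δ e) ∧ (∀ s < e, Ex (δ (s + 1)) (δ s)) ∧ Epi (δ 0)

variable [HasExt.{u} 𝒜]

/-- The class of the extension `0 ⟶ A ⟶ B ⟶ C ⟶ 0` (zero if this is not exact). -/
def ec {A B C : 𝒜} (f : A ⟶ B) (g : B ⟶ C) : Abelian.Ext C A 1 :=
  open Classical in
  if h : ∃ h : f ≫ g = 0, (ShortComplex.mk f g h).ShortExact then h.choose_spec.extClass else 0

/-- `y` in `Ext^(e+1)(T, K)` is the image of `z` in `Ext^0(T, D 0)` under the connecting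
homomorphisms `Ext^s(T, Z s) ⟶ Ext^(s+1)(T, Z (s+1))` of the short exact sequences
`0 ⟶ Z (s+1) ⟶ D (s+1) ⟶ Z s ⟶ 0` into which the resolution decomposes: `Z 0 = D 0`, `Z (s+1)` is
the kernel of `D (s+1) ⟶ D s`, and `Z (e+1) = K`. -/
def IsConn (T : 𝒜) (z : Abelian.Ext T (D 0) 0) (y : Abelian.Ext T K (e + 1)) : Prop :=
  ∃ c : ∀ s : ℕ, Abelian.Ext T (kernel (δ s)) (s + 1),
    c 0 = z.comp (ec (kernel.ι (δ 0)) (δ 0)) rfl ∧
    (∀ s < e, c (s + 1) = (c s).comp (ec (kernel.ι (δ (s + 1)))
      (the fun g => g ≫ kernel.ι (δ s) = δ (s + 1))) rfl) ∧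
    c e = y.comp (Abelian.Ext.mk₀ (the fun g => g ≫ kernel.ι (δ e) = k)) rfl

end abelian

end

end Pool.Agent.H15.KS
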