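import Pool.Agent.H15.KS.Defs

/-!
# The presheaf of families of a scheme
-/

namespace Pool.Agent.H15.KS

open AlgebraicGeometry CategoryTheory TopologicalSpace Opposite

universe u

noncomputable section

variable (X : Scheme.{u})

/-- The points of codimension `d - s`. -/
def Pt (d s : ℕ) : Type u := {v : X // Order.coheight v + (s : ℕ∞) = (d : ℕ∞)}

variable {X} in
/-- The underlying point. -/
def Pt.pt {d s : ℕ} (v : Pt X d s) : X := v.1

/-- The group `K_s(κ(v))`. -/
def KP (d s : ℕ) (v : Pt X d s) : AddCommGrpCat.{u} := MK (X.residueField v.pt) s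

/-- The points of `U` of codimension `d - s`. -/
def inU (d s : ℕ) (U : X.Opens) : Set (Pt X d s) := {v | v.pt ∈ U}

/-- The presheaf `U ↦ ⨁ K_s(κ(v))`, `v ∈ U` of codimension `d - s`. -/
def DPre (d s : ℕ) : X.Opensᵒᵖ ⥤ AddCommGrpCat.{u} where
  obj U := Sec (KP X d s) (inU X d s U.unop)
  map {U V} _ := cut (KP X d s) (inU X d s U.unop) (inU X d s V.unop)
  map_id U := by
    ext f
    exact sec_ext _ fun v hv => cut_spec _ f v hv
  map_comp {U V W} i j := by
    ext f
    refine sec_ext _ fun v hv => (cut_spec _ f v hv).trans ?_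
    exact ((cut_spec _ _ v hv).trans (cut_spec _ f v (j.unop.le hv))).symm

end

end Pool.Agent.H15.KS
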