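import Pool.Agent.H15.KS.Fin2
import Pool.Agent.H12.KB.Hcyc
import Pool.Agent.H84.KB.Q
import Pool.Agent.H84.KB.S
import Pool.Agent.H62.KB.P

/-!
# The theorem in the compact layer
-/

namespace Pool.Agent.H15.KS

open AlgebraicGeometry CategoryTheory CategoryTheory.Limits TopologicalSpace Opposite

universe u

noncomputable section

section spec

variable {X : Scheme.{u}} [IsNoetherian X] {e : ℕ}

/-- The relation which defines the homomorphism from cycles to cohomology. -/
def CycRel (X : Scheme.{u}) [IsNoetherian X] (e : ℕ) (z : Cyc X e) : Prop :=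
  IsConn (C X (e + 1)) (dC X (e + 1)) e (top X (e + 1)) (ZZ X)
    (ap (toH (C X (e + 1) 0)) z) (ap (cyc X e) z)

theorem cycRel (h : Gersten X e) (z : Cyc X e) : CycRel X e z := by
  have h1 : H17.KW.IsRes (C X (e + 1)) (dC X (e + 1)) e (top X (e + 1)) :=
    (H12.KB.isRes_iff fun s hs => H84.KB.isZero_C X (e + 1) s hs).mp h
  have h2 := H12.KB.the_cyc h1
  have h3 : cyc X e = H12.KB.cc h1 := H12.KB.cyc_eq_cc h1
  have h4 := (H12.KB.conn_iff h1 z (ap (cyc X e) z)).mpr
    (congrArg (fun g => ap g z) h3)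
  exact h4

variable {A : Type u} [CommRing A] [IsLocalRing A] (f : X ⟶ Spec (CommRingCat.of A)) (q n : ℕ)

/-- The defining equation of the restriction map. -/
theorem resT_spec (h : Gersten X e) :
    toCHq X e q ≫ H62.KB.resT f e q n ≫
      H62.KB.pushH (thickι f n) (Kq (thick f n) q (e + 1)) (e + 1) =
    cyc X e ≫ onH (red (thickι f n) q (e + 1)) (e + 1) := by
  have h0 : H17.KW.Gersten X e := (H84.KB.gersten_iff X e).1 h
  rw [H62.KB.resT_pushH f e q n]
  exact res_spec f h0 (H84.KB.isoK X (e + 1)) (H84.KB.isoFn f q (e + 1) n)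
    (H84.KB.red_isoFn f q (e + 1) n) (H12.KB.hcyc h0) H84.KB.famC_dv

end spec

variable {X : Scheme.{u}} [IsNoetherian X] {e : ℕ} {A : Type u} [CommRing A]
  [IsDomain A] [IsDiscreteValuationRing A] [HenselianLocalRing A] [CharZero A]

/-- The theorem, for the cohomology on `X`. -/
theorem final (p : ℕ) (hp : p.Prime) (π ε : A) (E : ℕ) (hπ : Irreducible π) (hε : IsUnit ε)
    (hpE : (p : A) = ε * π ^ E) (f : X ⟶ Spec (CommRingCat.of A))
    [SmoothOfRelativeDimension (e + 1) f] (hf : IsProjectiveOver f) (h : Gersten X e) (r : ℕ) :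
    ProIso f e (p ^ r) ∧ (∀ n ≥ 1, Function.Surjective (ap (res f e (p ^ r) n))) ∧
      ∀ n ≥ 2 * (r * E) + 2, Function.Bijective (ap (res f e (p ^ r) n)) :=
  final_of p hp π ε E hπ hε hpE f hf ((H84.KB.gersten_iff X e).1 h) r
    (H84.KB.isoK X (e + 1)) (fun n => H84.KB.isoFn f (p ^ r) (e + 1) n)
    (fun n => H84.KB.red_isoFn f (p ^ r) (e + 1) n)
    (H12.KB.hcyc ((H84.KB.gersten_iff X e).1 h)) H84.KB.famC_dv

/-- The theorem, for the cohomology of the thickenings. -/
theorem finalT (p : ℕ) (hp : p.Prime) (π ε : A) (E : ℕ) (hπ : Irreducible π) (hε : IsUnit ε)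
    (hpE : (p : A) = ε * π ^ E) (f : X ⟶ Spec (CommRingCat.of A))
    [SmoothOfRelativeDimension (e + 1) f] (hf : IsProjectiveOver f) (h : Gersten X e) (r : ℕ) :
    H62.KB.ProIsoT f e (p ^ r) ∧
    (∀ n ≥ 1, Function.Surjective (ap (H62.KB.resT f e (p ^ r) n))) ∧
      ∀ n ≥ 2 * (r * E) + 2, Function.Bijective (ap (H62.KB.resT f e (p ^ r) n)) := by
  obtain ⟨h1, h2, h3⟩ := final p hp π ε E hπ hε hpE f hf h r
  exact ⟨H62.KB.proIsoT_of_proIso f e (p ^ r) h1,
    fun n hn => (H62.KB.surjective_resT_iff f e (p ^ r) n).mpr (h2 n hn),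
    fun n hn => (H62.KB.bijective_resT_iff f e (p ^ r) n).mpr (h3 n hn)⟩

end

end Pool.Agent.H15.KS
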