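import Pool.Agent.H98.KS.Targets3

open scoped BigOperators

noncomputable section

namespace Pool.Agent.H15.KS

open Pool.Agent.H98.KS

lemma norm_ee (x : ℝ) : ‖ee x‖ = 1 := by
  unfold ee
  have : (2 * (Real.pi : ℂ) * x * Complex.I) = ((2 * Real.pi * x : ℝ) : ℂ) * Complex.I := by
    push_cast; ring
  rw [this, Complex.norm_exp_ofReal_mul_I]

lemma ee_neg (x : ℝ) : ee (-x) = (starRingEnd ℂ) (ee x) := by
  unfold ee
  rw [← Complex.exp_conj]
  congr 1
  have h2 : (starRingEnd ℂ) 2 = 2 := Complex.conj_ofNat 2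
  simp [h2]

lemma continuous_ee' : Continuous ee := by
  unfold ee
  fun_prop

lemma hasDerivAt_ee (φ : ℝ → ℝ) (φ' x : ℝ) (h : HasDerivAt φ φ' x) :
    HasDerivAt (fun t => ee (φ t)) (ee (φ x) * (2 * Real.pi * φ' * Complex.I)) x := by
  unfold ee
  have h1 : HasDerivAt (fun t => (2 * (Real.pi : ℂ) * (φ t : ℂ) * Complex.I))
      (2 * (Real.pi : ℂ) * (φ' : ℂ) * Complex.I) x := by
    have h2 : HasDerivAt (fun t => ((φ t : ℝ) : ℂ)) (φ' : ℂ) x := h.ofReal_comp
    have h3 := (h2.const_mul (2 * (Real.pi : ℂ))).mul_const Complex.I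
    exact h3
  exact h1.cexp

/-- the first derivative test -/
lemma vdc1 (φ φ' φ'' : ℝ → ℝ) (a b lam : ℝ) (hab : a ≤ b) (hlam : 0 < lam)
    (h1 : ∀ x ∈ Set.Icc a b, HasDerivAt φ (φ' x) x)
    (h2 : ∀ x ∈ Set.Icc a b, HasDerivAt φ' (φ'' x) x)
    (h3 : ∀ x ∈ Set.Icc a b, 0 ≤ φ'' x) (hc : ContinuousOn φ'' (Set.Icc a b))
    (hs : (∀ x ∈ Set.Icc a b, lam ≤ φ' x) ∨ (∀ x ∈ Set.Icc a b, φ' x ≤ -lam)) :
    ‖∫ x in a..b, ee (φ x)‖ ≤ 1 / lam := by
  have hne : ∀ x ∈ Set.Icc a b, φ' x ≠ 0 := by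
    intro x hx
    rcases hs with hs | hs
    · have := hs x hx; intro h; rw [h] at this; linarith
    · have := hs x hx; intro h; rw [h] at this; linarith
  have hpi : (0 : ℝ) < Real.pi := Real.pi_pos
  have hpi3 : (3 : ℝ) < Real.pi := Real.pi_gt_three
  have hcφ : ContinuousOn φ (Set.Icc a b) := fun x hx => (h1 x hx).continuousAt.continuousWithinAt
  have hcφ' : ContinuousOn φ' (Set.Icc a b) := fun x hx => (h2 x hx).continuousAt.continuousWithinAt
  have hcee : ContinuousOn (fun x => ee (φ x)) (Set.Icc a b) :=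
    continuous_ee'.comp_continuousOn hcφ
  -- the primitive
  set F : ℝ → ℂ := fun x => ee (φ x) / (2 * Real.pi * φ' x * Complex.I) with hF
  have hden : ∀ x ∈ Set.Icc a b, (2 * (Real.pi : ℂ) * (φ' x : ℂ) * Complex.I) ≠ 0 := by
    intro x hx
    have : ((φ' x : ℝ) : ℂ) ≠ 0 := by exact_mod_cast hne x hx
    have hp : (Real.pi : ℂ) ≠ 0 := by exact_mod_cast hpi.ne'
    simp [this, hp]
  have hFd : ∀ x ∈ Set.Icc a b, HasDerivAt F
      (ee (φ x) - ee (φ x) * ((φ'' x : ℝ) : ℂ) / (2 * Real.pi * (φ' x : ℂ) ^ 2 * Complex.I)) x := by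
    intro x hx
    have hd1 := hasDerivAt_ee φ (φ' x) x (h1 x hx)
    have hd2 : HasDerivAt (fun t => (2 * (Real.pi : ℂ) * (φ' t : ℂ) * Complex.I))
        (2 * (Real.pi : ℂ) * (φ'' x : ℂ) * Complex.I) x := by
      have h2' : HasDerivAt (fun t => ((φ' t : ℝ) : ℂ)) (φ'' x : ℂ) x := (h2 x hx).ofReal_comp
      exact (h2'.const_mul (2 * (Real.pi : ℂ))).mul_const Complex.I
    have hd3 := hd1.div hd2 (hden x hx)
    have hx0 : ((φ' x : ℝ) : ℂ) ≠ 0 := by exact_mod_cast hne x hx
    have hp : (Real.pi : ℂ) ≠ 0 := by exact_mod_cast hpi.ne'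
    have e : (ee (φ x) * (2 * Real.pi * φ' x * Complex.I) * (2 * (Real.pi : ℂ) * (φ' x : ℂ) * Complex.I)
        - ee (φ x) * (2 * (Real.pi : ℂ) * (φ'' x : ℂ) * Complex.I)) /
          (2 * (Real.pi : ℂ) * (φ' x : ℂ) * Complex.I) ^ 2
        = ee (φ x) - ee (φ x) * ((φ'' x : ℝ) : ℂ) / (2 * Real.pi * (φ' x : ℂ) ^ 2 * Complex.I) := by
      have hI : Complex.I ≠ 0 := Complex.I_ne_zero
      field_simp
    rw [e] at hd3
    exact hd3
  have hcont2 : ContinuousOn (fun x => ee (φ x) * ((φ'' x : ℝ) : ℂ) /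
      (2 * Real.pi * (φ' x : ℂ) ^ 2 * Complex.I)) (Set.Icc a b) := by
    apply ContinuousOn.div
    · exact hcee.mul (Complex.continuous_ofReal.comp_continuousOn hc)
    · apply ContinuousOn.mul
      · apply ContinuousOn.mul continuousOn_const
        exact (Complex.continuous_ofReal.comp_continuousOn hcφ').pow 2
      · exact continuousOn_const
    · intro x hx
      have : ((φ' x : ℝ) : ℂ) ≠ 0 := by exact_mod_cast hne x hx
      have hp : (Real.pi : ℂ) ≠ 0 := by exact_mod_cast hpi.ne'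
      simp [this, hp]
  have huI : Set.uIcc a b = Set.Icc a b := Set.uIcc_of_le hab
  have hint1 : IntervalIntegrable (fun x => ee (φ x)) MeasureTheory.volume a b := by
    apply ContinuousOn.intervalIntegrable
    rw [huI]; exact hcee
  have hint2 : IntervalIntegrable (fun x => ee (φ x) * ((φ'' x : ℝ) : ℂ) /
      (2 * Real.pi * (φ' x : ℂ) ^ 2 * Complex.I)) MeasureTheory.volume a b := by
    apply ContinuousOn.intervalIntegrable
    rw [huI]; exact hcont2
  have hFTC : ∫ x in a..b, (ee (φ x) - ee (φ x) * ((φ'' x : ℝ) : ℂ) /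
      (2 * Real.pi * (φ' x : ℂ) ^ 2 * Complex.I)) = F b - F a := by
    apply intervalIntegral.integral_eq_sub_of_hasDerivAt
    · intro x hx
      rw [huI] at hx
      exact hFd x hx
    · exact hint1.sub hint2
  rw [intervalIntegral.integral_sub hint1 hint2] at hFTC
  have hmain : ∫ x in a..b, ee (φ x) = F b - F a + ∫ x in a..b, ee (φ x) * ((φ'' x : ℝ) : ℂ) /
      (2 * Real.pi * (φ' x : ℂ) ^ 2 * Complex.I) := by
    rw [← hFTC]; ring
  -- the real primitive
  have hGd : ∀ x ∈ Set.Icc a b, HasDerivAt (fun t => -(1 / (2 * Real.pi)) * (φ' t)⁻¹)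
      ((1 / (2 * Real.pi)) * (φ'' x / (φ' x) ^ 2)) x := by
    intro x hx
    have h := ((h2 x hx).inv (hne x hx)).const_mul (-(1 / (2 * Real.pi)))
    have e : -(1 / (2 * Real.pi)) * (-φ'' x / (φ' x) ^ 2)
        = (1 / (2 * Real.pi)) * (φ'' x / (φ' x) ^ 2) := by ring
    rw [e] at h
    exact h
  have hcG : ContinuousOn (fun x => (1 / (2 * Real.pi)) * (φ'' x / (φ' x) ^ 2)) (Set.Icc a b) := by
    apply ContinuousOn.mul continuousOn_const
    apply ContinuousOn.div hc (hcφ'.pow 2)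
    intro x hx
    exact pow_ne_zero _ (hne x hx)
  have hintG : IntervalIntegrable (fun x => (1 / (2 * Real.pi)) * (φ'' x / (φ' x) ^ 2))
      MeasureTheory.volume a b := by
    apply ContinuousOn.intervalIntegrable
    rw [huI]; exact hcG
  have hFTC2 : ∫ x in a..b, (1 / (2 * Real.pi)) * (φ'' x / (φ' x) ^ 2)
      = -(1 / (2 * Real.pi)) * (φ' b)⁻¹ - (-(1 / (2 * Real.pi)) * (φ' a)⁻¹) := by
    apply intervalIntegral.integral_eq_sub_of_hasDerivAt (f := fun t => -(1 / (2 * Real.pi)) * (φ' t)⁻¹)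
    · intro x hx
      rw [huI] at hx
      exact hGd x hx
    · exact hintG
  have hbound : ‖∫ x in a..b, ee (φ x) * ((φ'' x : ℝ) : ℂ) /
      (2 * Real.pi * (φ' x : ℂ) ^ 2 * Complex.I)‖ ≤
      ∫ x in a..b, (1 / (2 * Real.pi)) * (φ'' x / (φ' x) ^ 2) := by
    apply intervalIntegral.norm_integral_le_of_norm_le hab
    · apply MeasureTheory.ae_of_all
      intro x hx
      have hx' : x ∈ Set.Icc a b := ⟨hx.1.le, hx.2⟩
      rw [norm_div, norm_mul, norm_ee, one_mul, norm_mul, norm_mul, norm_mul, norm_pow]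
      rw [Complex.norm_real, Complex.norm_real, Complex.norm_I, Complex.norm_real]
      rw [Real.norm_of_nonneg (h3 x hx'), Real.norm_of_nonneg hpi.le]
      have : ‖(2 : ℂ)‖ = 2 := by norm_num
      rw [this, Real.norm_eq_abs, sq_abs, mul_one]
      apply le_of_eq
      have hx0 := hne x hx'
      field_simp
    · exact hintG
  have ha : a ∈ Set.Icc a b := ⟨le_refl _, hab⟩
  have hb : b ∈ Set.Icc a b := ⟨hab, le_refl _⟩
  have hFn : ∀ x ∈ Set.Icc a b, ‖F x‖ ≤ 1 / (2 * Real.pi) * (1 / lam) := by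
    intro x hx
    rw [hF]
    simp only
    rw [norm_div, norm_ee, norm_mul, norm_mul, norm_mul, Complex.norm_real, Complex.norm_real,
      Complex.norm_I, Real.norm_of_nonneg hpi.le]
    have : ‖(2 : ℂ)‖ = 2 := by norm_num
    rw [this, Real.norm_eq_abs, mul_one]
    have hl : lam ≤ |φ' x| := by
      rcases hs with hs | hs
      · exact le_trans (hs x hx) (le_abs_self _)
      · have := hs x hx
        exact le_trans (by linarith) (neg_le_abs _)
    rw [← one_div_mul_one_div, ← one_div_mul_one_div]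
    apply mul_le_mul_of_nonneg_left
    · exact one_div_le_one_div_of_le hlam hl
    · positivity
  have hG : -(1 / (2 * Real.pi)) * (φ' b)⁻¹ - (-(1 / (2 * Real.pi)) * (φ' a)⁻¹)
      ≤ 1 / (2 * Real.pi) * (1 / lam) := by
    have e : -(1 / (2 * Real.pi)) * (φ' b)⁻¹ - (-(1 / (2 * Real.pi)) * (φ' a)⁻¹)
        = 1 / (2 * Real.pi) * ((φ' a)⁻¹ - (φ' b)⁻¹) := by ring
    rw [e]
    apply mul_le_mul_of_nonneg_left
    · rcases hs with hs | hs
      · have ha' := hs a ha
        have hb' := hs b hb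
        have i1 : (φ' a)⁻¹ ≤ lam⁻¹ := by
          apply inv_anti₀ hlam ha'
        have i2 : 0 ≤ (φ' b)⁻¹ := by
          apply inv_nonneg.mpr; linarith
        rw [one_div]; linarith
      · have ha' := hs a ha
        have hb' := hs b hb
        have i1 : (φ' a)⁻¹ ≤ 0 := by
          apply inv_nonpos.mpr; linarith
        have i2 : (-(φ' b))⁻¹ ≤ lam⁻¹ := by
          apply inv_anti₀ hlam; linarith
        rw [inv_neg] at i2
        rw [one_div]; linarith
    · positivity
  rw [hmain]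
  calc ‖F b - F a + ∫ x in a..b, ee (φ x) * ((φ'' x : ℝ) : ℂ) /
      (2 * Real.pi * (φ' x : ℂ) ^ 2 * Complex.I)‖
      ≤ ‖F b‖ + ‖F a‖ + ‖∫ x in a..b, ee (φ x) * ((φ'' x : ℝ) : ℂ) /
      (2 * Real.pi * (φ' x : ℂ) ^ 2 * Complex.I)‖ := by
        refine le_trans (norm_add_le _ _) ?_
        gcongr
        exact norm_sub_le _ _
    _ ≤ 1 / (2 * Real.pi) * (1 / lam) + 1 / (2 * Real.pi) * (1 / lam)
        + 1 / (2 * Real.pi) * (1 / lam) := by
        gcongr
        · exact hFn b hb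
        · exact hFn a ha
        · exact le_trans hbound (by rw [hFTC2]; exact hG)
    _ = 3 / (2 * Real.pi) * (1 / lam) := by ring
    _ ≤ 1 * (1 / lam) := by
        apply mul_le_mul_of_nonneg_right
        · rw [div_le_one (by positivity)]
          linarith
        · positivity
    _ = 1 / lam := one_mul _

/-- the estimate for positive `κ` -/
lemma II_pos (k : ℕ) (hk : 3 ≤ k) (κ u : ℝ) (hκ : 1 ≤ κ) :
    ‖II k κ u‖ ≤ 4 * κ ^ (-(1 / (k : ℝ))) := by
  have hk0 : (0 : ℝ) < k := by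
    have : 0 < k := by omega
    exact_mod_cast this
  have hκ0 : 0 < κ := by linarith
  set δ : ℝ := κ ^ (-(1 / (k : ℝ))) with hδ
  have hδ0 : 0 < δ := Real.rpow_pos_of_pos hκ0 _
  -- κ δ^(k-1) = 1/δ
  have hδk : κ * δ ^ k = 1 := by
    rw [hδ, ← Real.rpow_natCast, ← Real.rpow_mul hκ0.le]
    have : -(1 / (k : ℝ)) * (k : ℝ) = -1 := by field_simp
    rw [this, Real.rpow_neg_one]
    field_simp
  have hδk1 : κ * δ ^ (k - 1) = 1 / δ := by
    have e : δ ^ k = δ ^ (k - 1) * δ := by
      rw [← pow_succ]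
      congr 1
      omega
    rw [e] at hδk
    field_simp
    linarith
  set c : ℝ := max (u / (k * κ)) 0 with hc
  have hc0 : 0 ≤ c := le_max_right _ _
  set x0 : ℝ := c ^ (((k - 1 : ℕ) : ℝ)⁻¹) with hx0
  have hx00 : 0 ≤ x0 := Real.rpow_nonneg hc0 _
  have hx0k : x0 ^ (k - 1) = c := by
    rw [hx0]
    exact Real.rpow_inv_natCast_pow hc0 (by omega)
  set φ : ℝ → ℝ := fun x => κ * x ^ k - u * x with hφ
  set φ' : ℝ → ℝ := fun x => κ * ((k : ℝ) * x ^ (k - 1)) - u with hφ'
  set φ'' : ℝ → ℝ := fun x => κ * ((k : ℝ) * (((k - 1 : ℕ) : ℝ) * x ^ (k - 1 - 1))) with hφ''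
  have hd1 : ∀ x, HasDerivAt φ (φ' x) x := by
    intro x
    have h := ((hasDerivAt_pow k x).const_mul κ).sub ((hasDerivAt_id x).const_mul u)
    simp only [mul_one] at h
    exact h
  have hd2 : ∀ x, HasDerivAt φ' (φ'' x) x := by
    intro x
    have h := (((hasDerivAt_pow (k - 1) x).const_mul (k : ℝ)).const_mul κ).sub_const u
    exact h
  have hc2 : Continuous φ'' := by
    rw [hφ'']
    fun_prop
  have hcφ : Continuous φ := by
    rw [hφ]
    fun_prop
  set lam : ℝ := (k : ℝ) * (κ * δ ^ (k - 1)) with hlam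
  have hlam0 : 0 < lam := by positivity
  have hlam1 : 1 / lam ≤ δ := by
    rw [hlam, hδk1]
    have hk1 : (1 : ℝ) ≤ k := by
      have : 1 ≤ k := by omega
      exact_mod_cast this
    rw [div_le_iff₀ (by positivity)]
    field_simp
    exact hk1
  -- lower bound for φ' to the right
  have hright : ∀ x, x0 + δ ≤ x → lam ≤ φ' x := by
    intro x hx
    have h1 : x0 ^ (k - 1) + δ ^ (k - 1) ≤ (x0 + δ) ^ (k - 1) :=
      pow_add_pow_le hx00 hδ0.le (by omega)
    have h2 : (x0 + δ) ^ (k - 1) ≤ x ^ (k - 1) := by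
      apply pow_le_pow_left₀ _ hx
      linarith
    have h3 : u / (k * κ) ≤ c := le_max_left _ _
    have h4 : u ≤ c * (k * κ) := by
      rwa [div_le_iff₀ (by positivity)] at h3
    show lam ≤ κ * ((k : ℝ) * x ^ (k - 1)) - u
    have h5 : c + δ ^ (k - 1) ≤ x ^ (k - 1) := by
      rw [← hx0k]; linarith
    have h6 : κ * ((k : ℝ) * (c + δ ^ (k - 1))) ≤ κ * ((k : ℝ) * x ^ (k - 1)) := by
      gcongr
    rw [hlam]
    nlinarith
  have hleft : ∀ x, 0 ≤ x → x ≤ x0 - δ → φ' x ≤ -lam := by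
    intro x hx hx2
    have hx0pos : 0 < x0 := by linarith
    have hcpos : 0 < c := by
      rw [← hx0k]; positivity
    have hcu : c = u / (k * κ) := by
      rw [hc]
      apply max_eq_left
      by_contra h
      push Not at h
      rw [hc, max_eq_right h.le] at hcpos
      exact lt_irrefl _ hcpos
    have h1 : x ^ (k - 1) + δ ^ (k - 1) ≤ (x + δ) ^ (k - 1) :=
      pow_add_pow_le hx hδ0.le (by omega)
    have h2 : (x + δ) ^ (k - 1) ≤ x0 ^ (k - 1) := by
      apply pow_le_pow_left₀ _ (by linarith)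
      linarith
    have h4 : u = c * (k * κ) := by
      rw [hcu]
      field_simp
    show κ * ((k : ℝ) * x ^ (k - 1)) - u ≤ -lam
    have h5 : x ^ (k - 1) + δ ^ (k - 1) ≤ c := by
      rw [← hx0k]; linarith
    have h6 : κ * ((k : ℝ) * (x ^ (k - 1) + δ ^ (k - 1))) ≤ κ * ((k : ℝ) * c) := by
      gcongr
    rw [hlam]
    nlinarith
  set p : ℝ := max 0 (min 1 (x0 - δ)) with hp
  set q : ℝ := max 0 (min 1 (x0 + δ)) with hq
  have hp0 : 0 ≤ p := le_max_left _ _
  have hq1 : q ≤ 1 := max_le (by norm_num) (min_le_left _ _)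
  have hpq : p ≤ q := by
    apply max_le_max (le_refl _)
    apply min_le_min (le_refl _)
    linarith
  have hqp : q - p ≤ 2 * δ := by
    have h1 : q ≤ p + 2 * δ := by
      apply max_le
      · linarith
      · have h2 : min 1 (x0 + δ) ≤ min 1 (x0 - δ) + 2 * δ := by
          rcases le_total 1 (x0 - δ) with h | h
          · rw [min_eq_left h]
            exact le_trans (min_le_left _ _) (by linarith)
          · rw [min_eq_right h]
            exact le_trans (min_le_right _ _) (by linarith)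
        have h3 : min 1 (x0 - δ) ≤ p := le_max_right _ _
        linarith
    linarith
  have hci : ∀ s t : ℝ, IntervalIntegrable (fun x => ee (φ x)) MeasureTheory.volume s t := by
    intro s t
    exact (continuous_ee'.comp hcφ).intervalIntegrable s t
  have hsplit : II k κ u = (∫ x in (0 : ℝ)..p, ee (φ x)) + (∫ x in p..q, ee (φ x))
      + ∫ x in q..1, ee (φ x) := by
    rw [intervalIntegral.integral_add_adjacent_intervals (hci _ _) (hci _ _),
      intervalIntegral.integral_add_adjacent_intervals (hci _ _) (hci _ _)]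
    rfl
  have hA : ‖∫ x in (0 : ℝ)..p, ee (φ x)‖ ≤ δ := by
    rcases hp0.lt_or_eq with hpp | hpp
    · have hple : p ≤ x0 - δ := by
        by_contra h
        push Not at h
        have h1 : min 1 (x0 - δ) < p := lt_of_le_of_lt (min_le_right _ _) h
        have h2 : p ≤ max 0 (min 1 (x0 - δ)) := le_of_eq hp
        rcases le_total 0 (min 1 (x0 - δ)) with h3 | h3
        · rw [max_eq_right h3] at h2; linarith
        · rw [max_eq_left h3] at h2; linarith
      refine le_trans (vdc1 φ φ' φ'' 0 p lam hp0 hlam0 (fun x _ => hd1 x) (fun x _ => hd2 x) ?_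
        hc2.continuousOn (Or.inr ?_)) hlam1
      · intro x hx
        have hx0' : 0 ≤ x := hx.1
        show 0 ≤ κ * ((k : ℝ) * (((k - 1 : ℕ) : ℝ) * x ^ (k - 1 - 1)))
        positivity
      · intro x hx
        exact hleft x hx.1 (le_trans hx.2 hple)
    · rw [← hpp, intervalIntegral.integral_same, norm_zero]
      exact hδ0.le
  have hB : ‖∫ x in p..q, ee (φ x)‖ ≤ 2 * δ := by
    have h := intervalIntegral.norm_integral_le_of_norm_le_const (a := p) (b := q) (C := 1)
      (f := fun x => ee (φ x)) (fun x _ => by rw [norm_ee])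
    rw [one_mul, abs_of_nonneg (by linarith)] at h
    linarith
  have hC : ‖∫ x in q..1, ee (φ x)‖ ≤ δ := by
    rcases hq1.lt_or_eq with hqq | hqq
    · have hqge : x0 + δ ≤ q := by
        by_contra h
        push Not at h
        rcases le_total 1 (x0 + δ) with h1 | h1
        · have h2 : q = 1 := by
            rw [hq, min_eq_left h1]; norm_num
          linarith
        · have h2 : q = x0 + δ := by
            rw [hq, min_eq_right h1]
            apply max_eq_right
            linarith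
          linarith
      refine le_trans (vdc1 φ φ' φ'' q 1 lam hq1 hlam0 (fun x _ => hd1 x) (fun x _ => hd2 x) ?_
        hc2.continuousOn (Or.inl ?_)) hlam1
      · intro x hx
        have hx0' : 0 ≤ x := le_trans (le_trans hp0 hpq) hx.1
        show 0 ≤ κ * ((k : ℝ) * (((k - 1 : ℕ) : ℝ) * x ^ (k - 1 - 1)))
        positivity
      · intro x hx
        exact hright x (le_trans hqge hx.1)
    · rw [hqq, intervalIntegral.integral_same, norm_zero]
      exact hδ0.le
  rw [hsplit]
  calc ‖(∫ x in (0 : ℝ)..p, ee (φ x)) + (∫ x in p..q, ee (φ x)) + ∫ x in q..1, ee (φ x)‖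
      ≤ ‖∫ x in (0 : ℝ)..p, ee (φ x)‖ + ‖∫ x in p..q, ee (φ x)‖ + ‖∫ x in q..1, ee (φ x)‖ :=
        norm_add₃_le
    _ ≤ δ + 2 * δ + δ := by gcongr
    _ = 4 * δ := by ring

lemma II_neg (k : ℕ) (κ u : ℝ) : ‖II k (-κ) u‖ = ‖II k κ (-u)‖ := by
  unfold II
  have h : (fun x : ℝ => ee (-κ * x ^ k - u * x))
      = fun x : ℝ => (starRingEnd ℂ) (ee (κ * x ^ k - -u * x)) := by
    funext x
    rw [← ee_neg]
    congr 1
    ring
  rw [h]
  rw [intervalIntegral.integral_of_le (by norm_num), intervalIntegral.integral_of_le (by norm_num)]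
  rw [integral_conj, RCLike.norm_conj]

lemma II_le_one (k : ℕ) (κ u : ℝ) : ‖II k κ u‖ ≤ 1 := by
  unfold II
  have h := intervalIntegral.norm_integral_le_of_norm_le_const (a := (0 : ℝ)) (b := 1) (C := 1)
    (f := fun x => ee (κ * x ^ k - u * x)) (fun x _ => by rw [norm_ee])
  norm_num at h
  exact h

theorem ks_I1 : T_I1 := by
  intro k hk
  have hk1 : (1 : ℝ) ≤ (k : ℝ) - 1 := by
    have : (3 : ℝ) ≤ k := by exact_mod_cast hk
    linarith
  have he0 : 0 < e0 k := by
    unfold e0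
    positivity
  have he1 : e0 k ≤ 1 := by
    unfold e0
    rw [div_le_one (by positivity)]
    linarith
  have hek : e0 k ≤ 1 / (k : ℝ) := by
    unfold e0
    apply one_div_le_one_div_of_le
    · linarith
    · have : (3 : ℝ) ≤ k := by exact_mod_cast hk
      linarith
  refine ⟨8, by norm_num, ?_⟩
  intro κ u
  rcases le_total |κ| 1 with h | h
  · have h1 := II_le_one k κ u
    have h2 : (2 : ℝ)⁻¹ ≤ (1 + |κ|) ^ (-(e0 k)) := by
      rw [Real.rpow_neg (by positivity)]
      apply inv_anti₀ (by positivity)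
      calc (1 + |κ|) ^ (e0 k) ≤ (1 + |κ|) ^ (1 : ℝ) := by
            apply Real.rpow_le_rpow_of_exponent_le
            · linarith [abs_nonneg κ]
            · exact he1
        _ = 1 + |κ| := Real.rpow_one _
        _ ≤ 2 := by linarith
    linarith
  · have key : ‖II k κ u‖ ≤ 4 * |κ| ^ (-(1 / (k : ℝ))) := by
      rcases le_total 0 κ with hs | hs
      · rw [abs_of_nonneg hs] at h ⊢
        exact II_pos k hk κ u h
      · rw [abs_of_nonpos hs] at h ⊢
        have := II_pos k hk (-κ) (-u) h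
        rw [II_neg, neg_neg] at this
        exact this
    have hκ0 : 0 < |κ| := by linarith
    have h3 : |κ| ^ (-(1 / (k : ℝ))) ≤ |κ| ^ (-(e0 k)) := by
      apply Real.rpow_le_rpow_of_exponent_le h
      linarith
    have h4 : |κ| ^ (-(e0 k)) ≤ 2 * (1 + |κ|) ^ (-(e0 k)) := by
      rw [Real.rpow_neg (by positivity), Real.rpow_neg (by positivity)]
      have h5 : (1 + |κ|) ^ (e0 k) ≤ 2 * |κ| ^ (e0 k) := by
        calc (1 + |κ|) ^ (e0 k) ≤ (2 * |κ|) ^ (e0 k) := by
              apply Real.rpow_le_rpow (by positivity) (by linarith) he0.le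
          _ = 2 ^ (e0 k) * |κ| ^ (e0 k) := by
              rw [Real.mul_rpow (by norm_num) (by positivity)]
          _ ≤ 2 ^ (1 : ℝ) * |κ| ^ (e0 k) := by
              apply mul_le_mul_of_nonneg_right _ (by positivity)
              apply Real.rpow_le_rpow_of_exponent_le (by norm_num) he1
          _ = 2 * |κ| ^ (e0 k) := by rw [Real.rpow_one]
      have hp1 : 0 < |κ| ^ (e0 k) := Real.rpow_pos_of_pos hκ0 _
      have hp2 : 0 < (1 + |κ|) ^ (e0 k) := Real.rpow_pos_of_pos (by positivity) _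
      rw [← div_eq_mul_inv, inv_eq_one_div, div_le_div_iff₀ hp1 hp2]
      linarith
    calc ‖II k κ u‖ ≤ 4 * |κ| ^ (-(1 / (k : ℝ))) := key
      _ ≤ 4 * (2 * (1 + |κ|) ^ (-(e0 k))) := by linarith
      _ = 8 * (1 + |κ|) ^ (-(e0 k)) := by ring

end Pool.Agent.H15.KS
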