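import Pool.Agent.H98.KS.Targets3

open scoped BigOperators

noncomputable section

namespace Pool.Agent.H15.KS

open Pool.Agent.H98.KS

lemma ee_add (x y : ℝ) : ee (x + y) = ee x * ee y := by
  unfold ee
  rw [← Complex.exp_add]
  congr 1
  push_cast
  ring

lemma continuous_ee : Continuous ee := by
  unfold ee
  fun_prop

lemma continuous_ft {d : ℕ} (S : Finset (Fin d → ℤ)) (f : (Fin d → ℤ) → ℂ) :
    Continuous (fun ξ : Fin d → ℝ => ft S f ξ) := by
  unfold ft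
  apply continuous_finset_sum
  intro x _
  apply Continuous.mul continuous_const
  apply continuous_ee.comp
  apply Continuous.neg
  apply continuous_finset_sum
  intro i _
  exact continuous_const.mul (continuous_apply i)

lemma ft_shift {d : ℕ} (F T : Finset (Fin d → ℤ)) (f : (Fin d → ℤ) → ℂ) (hf : ∀ x, x ∉ F → f x = 0)
    (y : Fin d → ℤ) (hT : ∀ z ∈ F, y + z ∈ T) (ξ : Fin d → ℝ) :
    ∑ x ∈ T, f (x - y) * ee (-(∑ i, (x i : ℝ) * ξ i))
      = ee (-(∑ i, (y i : ℝ) * ξ i)) * ft F f ξ := by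
  classical
  have hinj : Set.InjOn (fun z : Fin d → ℤ => y + z) (F : Set (Fin d → ℤ)) := by
    intro a _ b _ h
    exact add_left_cancel h
  have hsub : F.image (fun z => y + z) ⊆ T := by
    intro x hx
    obtain ⟨z, hz, rfl⟩ := Finset.mem_image.mp hx
    exact hT z hz
  rw [← Finset.sum_subset hsub, Finset.sum_image hinj]
  · unfold ft
    rw [Finset.mul_sum]
    apply Finset.sum_congr rfl
    intro z _
    have h1 : y + z - y = z := by abel
    have h2 : -(∑ i, (((y + z) i : ℤ) : ℝ) * ξ i) = -(∑ i, (y i : ℝ) * ξ i) + -(∑ i, (z i : ℝ) * ξ i) := by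
      rw [← neg_add, ← Finset.sum_add_distrib]
      congr 1
      apply Finset.sum_congr rfl
      intro i _
      simp only [Pi.add_apply]
      push_cast
      ring
    rw [h1, h2, ee_add]
    ring
  · intro x _ hx
    have : x - y ∉ F := by
      intro h
      apply hx
      exact Finset.mem_image.mpr ⟨x - y, h, by abel⟩
    rw [hf _ this]
    ring

lemma ft_conv {d : ℕ} (S F T : Finset (Fin d → ℤ)) (K f : (Fin d → ℤ) → ℂ)
    (hf : ∀ x, x ∉ F → f x = 0) (hT : ∀ y ∈ S, ∀ z ∈ F, y + z ∈ T) (ξ : Fin d → ℝ) :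
    ft T (conv S K f) ξ = ft S K ξ * ft F f ξ := by
  have h1 : ft T (conv S K f) ξ
      = ∑ y ∈ S, K y * ∑ x ∈ T, f (x - y) * ee (-(∑ i, (x i : ℝ) * ξ i)) := by
    unfold ft conv
    simp_rw [Finset.sum_mul, Finset.mul_sum]
    rw [Finset.sum_comm]
    apply Finset.sum_congr rfl
    intro y _
    apply Finset.sum_congr rfl
    intro x _
    ring
  rw [h1]
  conv_rhs => rw [ft]
  rw [Finset.sum_mul]
  apply Finset.sum_congr rfl
  intro y hy
  rw [ft_shift F T f hf y (hT y hy) ξ]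
  ring

theorem ks_PK (hPV : T_PV) : T_PK := by
  classical
  intro d I S K F X f B hB hf
  have hint : ∀ (G : (Fin d → ℝ) → ℝ), Continuous G →
      MeasureTheory.IntegrableOn G (Set.Icc (0 : Fin d → ℝ) 1) := by
    intro G hG
    exact hG.continuousOn.integrableOn_compact isCompact_Icc
  have hcF : Continuous (fun ξ : Fin d → ℝ => ‖ft F f ξ‖ ^ 2) := ((continuous_ft F f).norm).pow 2
  have hci : ∀ i, Continuous (fun ξ : Fin d → ℝ => ‖ft (S i) (K i) ξ‖ ^ 2 * ‖ft F f ξ‖ ^ 2) :=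
    fun i => (((continuous_ft (S i) (K i)).norm).pow 2).mul hcF
  have h1 : ∀ i ∈ I, ∑ x ∈ X, ‖conv (S i) (K i) f x‖ ^ 2
      ≤ ∫ ξ in Set.Icc (0 : Fin d → ℝ) 1, ‖ft (S i) (K i) ξ‖ ^ 2 * ‖ft F f ξ‖ ^ 2 := by
    intro i _
    set T : Finset (Fin d → ℤ) := (Finset.image₂ (fun y z => y + z) (S i) F) ∪ X with hTdef
    have hT : ∀ y ∈ S i, ∀ z ∈ F, y + z ∈ T := by
      intro y hy z hz
      rw [hTdef]
      apply Finset.mem_union_left
      exact Finset.mem_image₂.mpr ⟨y, hy, z, hz, rfl⟩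
    have h2 : ∑ x ∈ X, ‖conv (S i) (K i) f x‖ ^ 2 ≤ ∑ x ∈ T, ‖conv (S i) (K i) f x‖ ^ 2 := by
      apply Finset.sum_le_sum_of_subset_of_nonneg Finset.subset_union_right
      intro x _ _
      positivity
    rw [hPV d T (conv (S i) (K i) f)] at h2
    have h3 : (fun ξ : Fin d → ℝ => ‖ft T (conv (S i) (K i) f) ξ‖ ^ 2)
        = fun ξ => ‖ft (S i) (K i) ξ‖ ^ 2 * ‖ft F f ξ‖ ^ 2 := by
      funext ξ
      rw [ft_conv (S i) F T (K i) f hf hT ξ, norm_mul, mul_pow]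
    rw [h3] at h2
    exact h2
  calc ∑ i ∈ I, ∑ x ∈ X, ‖conv (S i) (K i) f x‖ ^ 2
      ≤ ∑ i ∈ I, ∫ ξ in Set.Icc (0 : Fin d → ℝ) 1, ‖ft (S i) (K i) ξ‖ ^ 2 * ‖ft F f ξ‖ ^ 2 :=
        Finset.sum_le_sum h1
    _ = ∫ ξ in Set.Icc (0 : Fin d → ℝ) 1, ∑ i ∈ I, ‖ft (S i) (K i) ξ‖ ^ 2 * ‖ft F f ξ‖ ^ 2 := by
        rw [MeasureTheory.integral_finset_sum]
        intro i _
        exact hint _ (hci i)
    _ ≤ ∫ ξ in Set.Icc (0 : Fin d → ℝ) 1, B * ‖ft F f ξ‖ ^ 2 := by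
        apply MeasureTheory.integral_mono
        · exact hint _ (continuous_finset_sum _ (fun i _ => hci i))
        · exact hint _ (continuous_const.mul hcF)
        · intro ξ
          show ∑ i ∈ I, ‖ft (S i) (K i) ξ‖ ^ 2 * ‖ft F f ξ‖ ^ 2 ≤ B * ‖ft F f ξ‖ ^ 2
          rw [← Finset.sum_mul]
          apply mul_le_mul_of_nonneg_right (hB ξ)
          positivity
    _ = B * ∑ x ∈ F, ‖f x‖ ^ 2 := by
        rw [MeasureTheory.integral_const_mul, hPV d F f]

end Pool.Agent.H15.KS
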