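import Pool.Agent.H98.KS.Targets3

open scoped BigOperators

noncomputable section

namespace Pool.Agent.H15.KS

open Pool.Agent.H98.KS

lemma sum_Icc_neg_succ (f : ℤ → ℂ) (X : ℕ) :
    ∑ n ∈ Finset.Icc (-((X + 1 : ℕ) : ℤ)) ((X + 1 : ℕ) : ℤ), f n
      = ∑ n ∈ Finset.Icc (-(X : ℤ)) X, f n + f ((X : ℤ) + 1) + f (-((X : ℤ) + 1)) := by
  have h : Finset.Icc (-((X + 1 : ℕ) : ℤ)) ((X + 1 : ℕ) : ℤ)
      = insert (-((X : ℤ) + 1)) (insert ((X : ℤ) + 1) (Finset.Icc (-(X : ℤ)) X)) := by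
    ext n
    simp only [Finset.mem_Icc, Finset.mem_insert]
    push_cast
    omega
  rw [h, Finset.sum_insert, Finset.sum_insert]
  · ring
  · simp only [Finset.mem_Icc]; omega
  · simp only [Finset.mem_Icc, Finset.mem_insert]; omega

theorem ks_SH : T_SH := by
  intro k X θ ξ hk
  unfold Ss Hs
  induction X with
  | zero =>
    have hk0 : k ≠ 0 := by omega
    simp [ee, hk0]
  | succ X ih =>
    rw [sum_Icc_neg_succ, ih, Finset.sum_Icc_succ_top (by omega), Finset.sum_Icc_succ_top (by omega)]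
    have h1 : ee (θ * (((((X : ℤ) + 1).natAbs ^ k : ℕ)) : ℝ) - (((X : ℤ) + 1 : ℤ) : ℝ) * ξ)
        = ee (θ * ((X + 1 : ℕ) : ℝ) ^ k - ((X + 1 : ℕ) : ℝ) * ξ) := by
      have : ((X : ℤ) + 1).natAbs = X + 1 := by omega
      rw [this]; push_cast; rfl
    have h2 : ee (θ * ((((-((X : ℤ) + 1)).natAbs ^ k : ℕ)) : ℝ) - ((-((X : ℤ) + 1) : ℤ) : ℝ) * ξ)
        = ee (θ * ((X + 1 : ℕ) : ℝ) ^ k - ((X + 1 : ℕ) : ℝ) * (-ξ)) := by
      have : (-((X : ℤ) + 1)).natAbs = X + 1 := by omega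
      rw [this]; push_cast
      congr 1
      ring
    rw [h1, h2]
    ring

end Pool.Agent.H15.KS
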