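import Pool.Agent.H15.KS.Defs1
import Pool.Agent.H17.KW.Cx

/-!
# The presheaf of families is a sheaf
-/

namespace Pool.Agent.H15.KS

open AlgebraicGeometry CategoryTheory CategoryTheory.Limits TopologicalSpace Opposite
open Pool.Agent.H17.KW Pool.Agent.H84.KEW Pool.Agent.H62.MK

universe u

noncomputable section

variable (X : Scheme.{u}) [IsNoetherian X] (d s : ℕ)

/-- The comparison with the sheaf `D X d s`. -/
def isoD : DPre X d s ≅ (D X d s).obj :=
  NatIso.ofComponents (fun U => show Sec (KP X d s) (inU X d s U.unop) ≅ (D X d s).obj.obj U from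
    Iso.refl _)
    (by
      intro U V i
      ext f
      refine sec_ext _ fun v hv => ?_
      refine (cut_spec _ f v hv).trans ?_
      exact (keep_apply_pos (X := X.toTopCat) (fun v : Pts X d s => (v.1 : X)) _ hv).symm)

theorem isSheaf_DPre : Presheaf.IsSheaf (Opens.grothendieckTopology X) (DPre X d s) :=
  TopCat.Presheaf.isSheaf_of_iso (isoD X d s).symm (D X d s).property

end

end Pool.Agent.H15.KS
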